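import Pool.Agent.H18.TD.Targets

/-!
Board td1_modules (MP_58ae59_nt), row FRA.
-/

set_option autoImplicit false

open Polynomial Module

namespace Pool.Agent.H33.TD

open Pool.Agent.H18.TD

noncomputable section

theorem ao_aeval (t : ℝ) (p : ℚ[X]) : AO (t : ℂ) ((aeval t p : ℝ) : ℂ) := by
  unfold AO
  have h1 : ((aeval t p : ℝ) : ℂ) = aeval (t : ℂ) p := by
    have := Polynomial.aeval_algebraMap_apply (A := ℝ) ℂ t p
    exact this.symm
  have h2 : aeval (t : ℂ) p ∈ IntermediateField.adjoin ℚ ({(t : ℂ)} : Set ℂ) :=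
    IntermediateField.algebra_adjoin_le_adjoin ℚ _ (aeval_mem_adjoin_singleton ℚ (t : ℂ))
  rw [h1]
  exact isAlgebraic_algebraMap (⟨aeval (t : ℂ) p, h2⟩ :
    IntermediateField.adjoin ℚ ({(t : ℂ)} : Set ℂ))

theorem pf_FRA : T_TRE → T_AOC → T_DEP → T_LAW → T_FRA := by
  classical
  intro hTRE hAOC hDEP hLAW n D a b ha hb hb0 hli hexp
  obtain ⟨hAt, hq, hadd, hmul, hinv, hroot, -⟩ := hAOC ((Real.exp 1 : ℝ) : ℂ)
  have hne : ∀ p : ℚ[X], p ≠ 0 → aeval (Real.exp 1) p ≠ 0 := by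
    intro p hp h
    exact hTRE ⟨p, hp, h⟩
  rcases Nat.eq_zero_or_pos n with h0 | hpos
  · rw [h0]
    exact Nat.zero_le _
  set B : ℚ[X] := ∏ j, b j with hB
  have hB0 : aeval (Real.exp 1) B ≠ 0 := hne B (Finset.prod_ne_zero_iff.2 fun j _ => hb0 j)
  set β : ℝ := (aeval (Real.exp 1) B)⁻¹ with hβ
  have hβ0 : β ≠ 0 := inv_ne_zero hB0
  have hAβ : AO ((Real.exp 1 : ℝ) : ℂ) (β : ℂ) := by
    rw [hβ, Complex.ofReal_inv]
    exact hinv _ (ao_aeval _ B)
  set g : Fin (n + 1) → ℚ[X] := Fin.cons B (fun i => a i * ∏ j ∈ Finset.univ.erase i, b j)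
    with hg
  have hval : ∀ i, β * aeval (Real.exp 1) (a i * ∏ j ∈ Finset.univ.erase i, b j) =
      aeval (Real.exp 1) (a i) / aeval (Real.exp 1) (b i) := by
    intro i
    have h1 : aeval (Real.exp 1) (∏ j ∈ Finset.univ.erase i, b j) ≠ 0 :=
      hne _ (Finset.prod_ne_zero_iff.2 fun j _ => hb0 j)
    rw [hβ, hB, ← Finset.mul_prod_erase Finset.univ b (Finset.mem_univ i), map_mul, map_mul,
      mul_comm, ← div_eq_mul_inv]
    exact mul_div_mul_right _ _ h1
  have hval' : ∀ k, β * aeval (Real.exp 1) (g k) =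
      (Fin.cons 1 (fun i => aeval (Real.exp 1) (a i) / aeval (Real.exp 1) (b i)) :
        Fin (n + 1) → ℝ) k := by
    intro k
    refine Fin.cases ?_ (fun i => ?_) k
    · rw [hg, Fin.cons_zero, Fin.cons_zero, hβ, inv_mul_cancel₀ hB0]
    · rw [hg, Fin.cons_succ, Fin.cons_succ]
      exact hval i
  have hlin : LinearIndependent ℚ g := by
    let φ : ℚ[X] →ₗ[ℚ] ℝ := (LinearMap.mulLeft ℚ β).comp (aeval (Real.exp 1)).toLinearMap
    refine LinearIndependent.of_comp φ ?_
    have h1 : (φ ∘ g) = (Fin.cons 1 (fun i => aeval (Real.exp 1) (a i) /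
        aeval (Real.exp 1) (b i)) : Fin (n + 1) → ℝ) := funext fun k => hval' k
    rw [h1]
    exact hli
  have hdeg : ∀ k, (g k).natDegree ≤ n * D := by
    intro k
    refine Fin.cases ?_ (fun i => ?_) k
    · rw [hg, Fin.cons_zero]
      refine (natDegree_prod_le _ _).trans ?_
      refine (Finset.sum_le_card_nsmul Finset.univ _ D fun j _ => hb j).trans ?_
      simp
    · rw [hg, Fin.cons_succ]
      refine natDegree_mul_le.trans ?_
      have h1 : (∏ j ∈ Finset.univ.erase i, b j).natDegree ≤ (n - 1) * D := by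
        refine (natDegree_prod_le _ _).trans ?_
        refine (Finset.sum_le_card_nsmul (Finset.univ.erase i) _ D fun j _ => hb j).trans ?_
        rw [Finset.card_erase_of_mem (Finset.mem_univ i), Finset.card_univ, Fintype.card_fin,
          smul_eq_mul]
      obtain ⟨m, rfl⟩ : ∃ m, n = m + 1 := ⟨n - 1, by omega⟩
      have h2 := ha i
      rw [Nat.add_sub_cancel] at h1
      nlinarith
  have hAO : ∀ k, AO ((Real.exp 1 : ℝ) : ℂ)
      ((Real.exp (β * aeval (Real.exp 1) (g k)) : ℝ) : ℂ) := by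
    intro k
    rw [hval']
    refine Fin.cases ?_ (fun i => ?_) k
    · rw [Fin.cons_zero]
      exact hAt
    · rw [Fin.cons_succ]
      exact (hDEP (Real.exp 1) _ hTRE).1 (hexp i)
  have h := hLAW (Real.exp 1) β hTRE hβ0 hAβ (n + 1) (n * D) g hlin hdeg hAO
  have h2 : n * (n + 2) ≤ n * (4 * D) := by nlinarith
  have h3 : n + 2 ≤ 4 * D := Nat.le_of_mul_le_mul_left h2 hpos
  omega

end

end Pool.Agent.H33.TD
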