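import Pool.Agent.H18.TD.Targets

/-!
Board td1_modules (MP_58ae59_nt), row SPC.
-/

set_option autoImplicit false

open Polynomial Module

namespace Pool.Agent.H33.TD

open Pool.Agent.H18.TD

noncomputable section

theorem ao_exp_smul (hAOC : T_AOC) {t x : ℝ} (q : ℚ)
    (h : AO (t : ℂ) ((Real.exp x : ℝ) : ℂ)) :
    AO (t : ℂ) ((Real.exp ((q : ℝ) * x) : ℝ) : ℂ) := by
  obtain ⟨-, -, -, -, -, hroot, hexp⟩ := hAOC (t : ℂ)
  refine hroot _ q.den q.pos ?_
  have h1 := hexp 1 (fun _ => (x : ℂ)) (fun _ => q.num) (fun _ => by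
    rw [← Complex.ofReal_exp]
    exact h)
  have h2 : ((Real.exp ((q : ℝ) * x) : ℝ) : ℂ) ^ q.den =
      Complex.exp (∑ k : Fin 1, (x : ℂ) * ((q.num : ℤ) : ℂ)) := by
    rw [Finset.univ_unique, Finset.sum_singleton, Complex.ofReal_exp, ← Complex.exp_nat_mul]
    congr 1
    have h3 : (q : ℝ) * (q.den : ℝ) = (q.num : ℝ) := by
      exact_mod_cast Rat.mul_den_eq_num q
    have h4 : ((q.den : ℕ) : ℝ) * ((q : ℝ) * x) = x * (q.num : ℝ) := by
      rw [← h3]
      ring
    exact_mod_cast congrArg (fun z : ℝ => (z : ℂ)) h4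
  rw [h2]
  exact h1

theorem pf_SPC : T_AOC → T_DEP → T_LAW → T_SPC := by
  intro hAOC hDEP hLAW t β ht hβ hAβ D
  obtain ⟨-, hq, hadd, hmul, hinv, hroot, hexp⟩ := hAOC (t : ℂ)
  let W : Submodule ℚ ℚ[X] :=
    { carrier := {a | a.natDegree ≤ D ∧ AO (t : ℂ) ((Real.exp (β * aeval t a) : ℝ) : ℂ)}
      add_mem' := by
        rintro a b ⟨ha, ha'⟩ ⟨hb, hb'⟩
        refine ⟨(natDegree_add_le a b).trans (max_le ha hb), ?_⟩
        rw [map_add, mul_add, Real.exp_add, Complex.ofReal_mul]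
        exact hmul _ _ ha' hb'
      zero_mem' := by
        refine ⟨by simp, ?_⟩
        rw [map_zero, mul_zero, Real.exp_zero]
        have := hq 1
        simpa using this
      smul_mem' := by
        rintro q a ⟨ha, ha'⟩
        refine ⟨(natDegree_smul_le q a).trans ha, ?_⟩
        have h1 : β * aeval t (q • a) = (q : ℝ) * (β * aeval t a) := by
          rw [map_smul, Rat.smul_def]
          ring
        rw [h1]
        exact ao_exp_smul hAOC q ha' }
  have hWmem : ∀ a : ℚ[X], a ∈ W ↔ a.natDegree ≤ D ∧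
      AO (t : ℂ) ((Real.exp (β * aeval t a) : ℝ) : ℂ) := fun a => Iff.rfl
  have hle : W ≤ degreeLT ℚ (D + 1) := by
    intro a ha
    rw [mem_degreeLT]
    refine (degree_le_natDegree).trans_lt ?_
    have := ((hWmem a).1 ha).1
    exact_mod_cast Nat.lt_succ_of_le this
  have hfin : FiniteDimensional ℚ (degreeLT ℚ (D + 1)) :=
    Module.Finite.equiv (degreeLTEquiv ℚ (D + 1)).symm
  have hW : FiniteDimensional ℚ W := Submodule.finiteDimensional_of_le hle
  refine ⟨W, fun a => ?_, hW, ?_⟩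
  · rw [hWmem, hDEP t _ ht]
  · have hb := Module.finBasis ℚ W
    refine hLAW t β ht hβ hAβ (finrank ℚ W) D (fun i => (hb i : ℚ[X])) ?_ ?_ ?_
    · exact hb.linearIndependent.map' W.subtype (Submodule.ker_subtype W)
    · exact fun i => ((hWmem _).1 (hb i).2).1
    · exact fun i => ((hWmem _).1 (hb i).2).2

end

end Pool.Agent.H33.TD
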